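import Pool.Agent.N408.IB.Stm

/-!
Project IB, leaf END1: the belt end point inequality.
-/

set_option autoImplicit false

open Real Set MeasureTheory

namespace N342.IB.END1

open IB408

theorem leg_cube (h1 : S_L1) (h : ℝ → ℝ) (hc : Continuous h) (h2 : ∀ ψ, |h ψ - 1| ≤ 1 / 10)
    (θ : ℝ) (hθ : h θ = 1) : Leg h θ ^ 3 ≤ 1 := by
  obtain ⟨-, h3, -, h4, -⟩ := h1 h hc h2
  have h5 : Leg h θ ≤ 1 := by
    have := h3 θ 0 ⟨by norm_num, by norm_num⟩
    rw [add_zero, cos_zero, div_one, hθ] at this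
    exact this
  have h6 := h4 (1 / 10) le_rfl h2 θ
  rw [abs_le] at h6
  have h7 : 0 ≤ Leg h θ := by linarith [h6.1]
  exact pow_le_one₀ h7 h5

theorem t (h1 : S_L1) (h2 : S_ODD1) (h3 : S_ODD2) (h4 : S_BAS1) : IB408.S_END1 := by
  intro q w hq hw0 hw1 γ hγ
  obtain ⟨⟨a1, a2, a3, a4, a5, a6, a7, a8⟩, -⟩ := h2
  obtain ⟨b1, b2, b3, b4, b5, b6, b7, b8, b9, b10, b11⟩ := h4 q hq
  obtain ⟨-, -, -, -, -, -, c7, -⟩ := h3 w hw0 hw1
  have hb : b = 1 / 1000000 := rfl
  have hb0 : 0 < b := by rw [hb]; norm_num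
  have hal0 : 0 < al := by linarith
  have hal1 : al ≤ 1 / 100000 := by rw [hb] at a2; linarith
  -- the cap value at al
  have hcap : Pcap q al ≤ 1 := by
    have h5 : ∀ σ, σ = 1 ∨ σ = -1 → Leg (hc q σ) al ^ 3 ≤ 1 := by
      intro σ hσ
      obtain ⟨e1, e2, e3⟩ := b1 σ hσ
      refine leg_cube h1 _ e1 (fun ψ => (e2 ψ).trans ?_) al (e3 al ?_ ?_)
      · rw [hb]; norm_num
      · rw [abs_of_pos hal0]
      · rw [abs_of_pos hal0]; linarith
    have h6 := h5 1 (Or.inl rfl)
    have h7 := h5 (-1) (Or.inr rfl)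
    unfold Pcap
    linarith
  obtain ⟨g, hg⟩ : ∃ g, g = |γ| := ⟨_, rfl⟩
  have hg0 : 0 ≤ g := by rw [hg]; exact abs_nonneg γ
  have hgal : g ≤ al := by rw [hg]; exact hγ
  have hmin : min |γ| al = g := by rw [← hg]; exact min_eq_left hgal
  -- the integral
  have hP : Pint q γ ≤ b ^ 2 * (al - g) ^ 2 / 2 := by
    unfold Pint
    rw [hmin]
    have h5 : ∫ θ in g..al, (Pcap q θ - 1) * sin θ ≤ ∫ θ in g..al, b ^ 2 * (al - θ) := by
      apply intervalIntegral.integral_mono_on hgal
      · exact ((b2.sub continuous_const).mul continuous_sin).intervalIntegrable _ _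
      · exact (continuous_const.mul (continuous_const.sub continuous_id)).intervalIntegrable _ _
      · intro θ hθ
        have hs0 : 0 ≤ sin θ := sin_nonneg_of_nonneg_of_le_pi (hg0.trans hθ.1) (by
          linarith [hθ.2, pi_gt_three])
        have hs1 : sin θ ≤ b := by
          rw [← a3]
          exact sin_le_sin_of_le_of_le_pi_div_two (by linarith [hθ.1, pi_gt_three])
            (by linarith [pi_gt_three]) hθ.2
        have h6 := b4 θ al
        rw [abs_sub_comm θ al, abs_of_nonneg (sub_nonneg.2 hθ.2)] at h6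
        have h7 := (abs_le.1 h6).2
        have h8 : Pcap q θ - 1 ≤ b * (al - θ) := by linarith
        have h9 : 0 ≤ al - θ := sub_nonneg.2 hθ.2
        calc (Pcap q θ - 1) * sin θ ≤ b * (al - θ) * sin θ :=
              mul_le_mul_of_nonneg_right h8 hs0
          _ ≤ b * (al - θ) * b := mul_le_mul_of_nonneg_left hs1 (by positivity)
          _ = b ^ 2 * (al - θ) := by ring
    refine h5.trans (le_of_eq ?_)
    rw [intervalIntegral.integral_const_mul, intervalIntegral.integral_comp_sub_left (fun x => x) al,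
      sub_self, integral_id]
    ring
  have hPabs := b10 γ
  have hcg : 99 / 100 ≤ cos g := by
    have h5 : cos al ≤ cos g := cos_le_cos_of_nonneg_of_le_pi hg0 (by linarith [pi_gt_three]) hgal
    rw [a4] at h5
    have h6 : (51 / 100 : ℝ) * b ^ 2 ≤ 1 / 100 := by rw [hb]; norm_num
    linarith
  have hPs : |Pint q γ| ≤ 1 / 100 := by
    refine hPabs.trans ?_
    rw [hb]; norm_num
  rw [abs_le] at hPs
  have hden : 98 / 100 ≤ cos g + Pint q γ := by linarith [hPs.1]
  have hx0 : 0 ≤ al - g := by linarith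
  have hx1 : al - g ≤ 1 / 100000 := by linarith
  have hst : - (52 / 100 * b ^ 2 * (al - g) ^ 2) ≤ st q γ := by
    unfold st
    rw [hmin]
    have hpos : 0 < cos g + Pint q γ := by linarith
    have h5 : 0 ≤ b ^ 2 * (al - g) ^ 2 := by positivity
    rw [show cos g / (cos g + Pint q γ) - 1 = (- Pint q γ) / (cos g + Pint q γ) by
      field_simp; ring]
    rw [le_div_iff₀ hpos]
    nlinarith
  have hob : - (4 / 10 * b * (al - g) ^ 2) ≤ ob w γ := by
    have h5 := c7 γ hγ
    rw [← hg] at h5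
    have h6 := (abs_le.1 h5).1
    have h7 : 4 * w * b * (al - g) ^ 2 ≤ 4 / 10 * b * (al - g) ^ 2 := by
      apply mul_le_mul_of_nonneg_right _ (by positivity)
      nlinarith
    linarith
  have hcos : cos (al - g) ≤ 1 - 45 / 100 * (al - g) ^ 2 := by
    have h5 := Real.cos_bound (x := al - g) (by rw [abs_of_nonneg hx0]; linarith)
    have h6 := (abs_le.1 h5).2
    rw [abs_of_nonneg hx0] at h6
    have h7 : (al - g) ^ 4 * (5 / 96) ≤ 5 / 100 * (al - g) ^ 2 := by
      have h8 : (al - g) ^ 2 ≤ 1 / 10 := by nlinarith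
      have h9 : 0 ≤ (al - g) ^ 2 := by positivity
      nlinarith
    linarith
  rw [← hg]
  unfold IB408.hb
  have h5 : 52 / 100 * b ^ 2 * (al - g) ^ 2 + 4 / 10 * b * (al - g) ^ 2 ≤
      45 / 100 * (al - g) ^ 2 := by
    rw [← add_mul]
    apply mul_le_mul_of_nonneg_right _ (by positivity)
    rw [hb]; norm_num
  linarith

end N342.IB.END1
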